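import Pool.Agent.Work.MP_baf0bc_nt.Zn.Eng
import Pool.Agent.Work.MP_baf0bc_nt.Zn.Cert

/-! The number of Z-numbers of Mahler up to `X` is `O(X ^ (8 / 15))`. -/

set_option autoImplicit false

open Finset Polynomial Real Filter

namespace Pool.Agent.Work.MP_baf0bc_nt.Parked.ZNumberCount

open Pool.Agent.Work.MP_baf0bc_nt.Zn

theorem seeds : ∀ᶠ w : ℕ in atTop, ∀ Z : Finset ℕ, (∀ x ∈ Z, x ≤ 32 ^ w ∧ ∃ t : ℕ → ℝ,
    ∀ i, 0 ≤ t i ∧ t i < 1 ∧ t (i + 1) = 3 / 2 * t i - (T^[i] x % 2 : ℕ)) →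
      (Z.card : ℝ) ≤ 10 ^ 11 * (1001 / 1000 * (127 / 100) * (499 / 100)) ^ w := by
  filter_upwards [engine (r := 3) three_pos (log_pos (by norm_num : (1 : ℝ) < 1001 / 1000)),
    eventually_ge_atTop 5] with w h w5 Z hZ
  have l1 := Nat.pow_log_le_self 2 (x := 3 ^ w) (by positivity)
  have l2 := Nat.lt_pow_succ_log_self one_lt_two (3 ^ w)
  have l3 : w ≤ Nat.log 2 (3 ^ w) :=
    Nat.le_log_of_pow_le one_lt_two (Nat.pow_le_pow_left (by norm_num) w)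
  have l4 : Nat.log 2 (3 ^ w) ≤ 2 * w := (Nat.pow_le_pow_iff_right one_lt_two).1
    (l1.trans (by rw [pow_mul]; exact Nat.pow_le_pow_left (by norm_num) w))
  obtain ⟨t, ht⟩ : ∃ t, w + t = Nat.log 2 (3 ^ w) + 5 := ⟨Nat.log 2 (3 ^ w) + 5 - w, by omega⟩
  have e : 2 ^ (w + t) = 2 ^ Nat.log 2 (3 ^ w) * 32 := by rw [ht, pow_add]; rfl
  rw [pow_succ] at l2
  have sh : ∀ x ∈ Z, ∀ k n, (PP n 0).coeff (sg n (T^[k] x)) ≠ 0 := fun x hx k n => by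
    obtain ⟨u, hu⟩ := (hZ x hx).2
    exact acc n 0 _ (fun i => u (i + k))
      (fun i => by simpa only [Function.iterate_add_apply, add_right_comm] using hu (i + k))
      (hu _).2.1
  refine (h t (PP w 0) (PP t 0) Z (by omega) (by omega) (PP_deg w 0) fun x hx =>
    ⟨?_, fun l _ => sh x hx _ _, sh x hx _ _⟩).trans ?_
  · rw [show 2 * 3 * w + t = w + t + 5 * w by ring, pow_add, pow_mul]
    exact Nat.mul_le_mul (by omega) (hZ x hx).1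
  · have a1 := PP_eval t 0
    have a2 := (energy w).1 (0, 0, 0) (0, 0, 0)
    rw [show QQ w (0, 0, 0) = PP w 0 ^ 3 from (pow_three' _).symm,
      show ps (0, 0, 0) = 1000 by decide +kernel] at a2
    have a3 : (2 : ℝ) ^ t ≤ 32 * (3 / 2) ^ w := by
      have : ((2 ^ (w + t) : ℕ) : ℝ) ≤ (32 * 3 ^ w : ℕ) := Nat.cast_le.2 (by omega)
      push_cast at this
      rw [div_pow, ← mul_div_assoc, le_div_iff₀ (by positivity), ← pow_add, add_comm]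
      exact this
    have a4 : (751 / 500 : ℝ) ^ t ≤ 8 * (127 / 100) ^ w := by
      refine le_of_pow_le_pow_left₀ (n := 17) (by norm_num) (by positivity) ?_
      calc _ = ((751 / 500 : ℝ) ^ 17) ^ t := pow_right_comm _ _ _
        _ ≤ (2 ^ 10) ^ t := pow_le_pow_left₀ (by positivity) (by norm_num) t
        _ = (2 ^ t) ^ 10 := pow_right_comm _ _ _
        _ ≤ (32 * (3 / 2) ^ w) ^ 10 := pow_le_pow_left₀ (by positivity) a3 10
        _ = 32 ^ 10 * ((3 / 2) ^ 10) ^ w := by rw [mul_pow, pow_right_comm]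
        _ ≤ 8 ^ 17 * ((127 / 100) ^ 17) ^ w := by gcongr ?_ * ?_ ^ w <;> norm_num
        _ = _ := by rw [mul_pow, pow_right_comm]
    rw [mul_comm (log _), exp_nat_mul, exp_log (by norm_num), mul_pow, mul_pow]
    calc _ ≤ (1001 / 1000 : ℝ) ^ w * (8 * (127 / 100) ^ w * 10000) *
          ((499 / 100) ^ w * 1000 * 1000) := by
          gcongr
          · exact a1.trans (mul_le_mul_of_nonneg_right a4 (Nat.cast_nonneg _))
          · exact_mod_cast a2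
      _ = 8 * 10 ^ 10 * ((1001 / 1000 : ℝ) ^ w * (127 / 100) ^ w * (499 / 100) ^ w) := by ring
      _ ≤ _ := by gcongr; norm_num

theorem orbit {ξ : ℝ} (h0 : 0 < ξ) (h : ∀ n : ℕ, Int.fract (ξ * (3 / 2) ^ n) < 1 / 2) (n : ℕ) :
    ξ * (3 / 2) ^ n = T^[n] ⌊ξ⌋₊ + Int.fract (ξ * (3 / 2) ^ n) := by
  induction n with
  | zero => simp [natCast_floor_eq_intCast_floor h0.le]
  | succ n ih =>
    have h1 : (2 : ℝ) * T (T^[n] ⌊ξ⌋₊) = 3 * T^[n] ⌊ξ⌋₊ + (T^[n] ⌊ξ⌋₊ % 2 : ℕ) := by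
      exact_mod_cast two_T _
    have h2 : ((T^[n] ⌊ξ⌋₊ % 2 : ℕ) : ℝ) ≤ 1 := Nat.cast_le_one.2 (by omega)
    have h3 : (0 : ℝ) ≤ (T^[n] ⌊ξ⌋₊ % 2 : ℕ) := Nat.cast_nonneg _
    have h4 := Int.floor_add_fract (ξ * (3 / 2) ^ (n + 1))
    have h5 := Int.fract_nonneg (ξ * (3 / 2) ^ (n + 1))
    have h6 := Int.fract_nonneg (ξ * (3 / 2) ^ n)
    have h7 : ξ * (3 / 2) ^ (n + 1) = 3 / 2 * (ξ * (3 / 2) ^ n) := by ring
    rw [Function.iterate_succ_apply']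
    have : ⌊ξ * (3 / 2) ^ (n + 1)⌋ = T (T^[n] ⌊ξ⌋₊) := by
      have a : ((⌊ξ * (3 / 2) ^ (n + 1)⌋ : ℤ) : ℝ) < (T (T^[n] ⌊ξ⌋₊) + 1 : ℤ) := by
        push_cast
        linarith [h n]
      have b : ((T (T^[n] ⌊ξ⌋₊) : ℤ) : ℝ) < (⌊ξ * (3 / 2) ^ (n + 1)⌋ + 1 : ℤ) := by
        push_cast
        linarith [h (n + 1)]
      rw [Int.cast_lt] at a b
      omega
    rw [this] at h4
    exact_mod_cast h4.symm

theorem result : ∃ C : ℝ, ∀ X : ℝ, 1 ≤ X →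
    {ξ : ℝ | 0 < ξ ∧ ξ ≤ X ∧ ∀ n : ℕ, Int.fract (ξ * (3 / 2) ^ n) < 1 / 2}.Finite ∧
      ({ξ : ℝ | 0 < ξ ∧ ξ ≤ X ∧ ∀ n : ℕ, Int.fract (ξ * (3 / 2) ^ n) < 1 / 2}.ncard : ℝ) ≤
        C * X ^ (8 / 15 : ℝ) := by
  obtain ⟨w0, hw⟩ := eventually_atTop.1 seeds
  obtain ⟨ρ, hρ⟩ : ∃ ρ : ℝ, ρ = 1001 / 1000 * (127 / 100) * (499 / 100) := ⟨_, rfl⟩
  refine ⟨10 ^ 11 * ρ ^ (w0 + 1), fun X hX => ?_⟩
  obtain ⟨w, w1, w2⟩ := exists_nat_pow_near hX (by norm_num : (1 : ℝ) < 32)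
  set S := {ξ : ℝ | 0 < ξ ∧ ξ ≤ X ∧ ∀ n : ℕ, Int.fract (ξ * (3 / 2) ^ n) < 1 / 2}
  have inj : Set.InjOn (fun ξ : ℝ => ⌊ξ⌋₊) S := fun a ha b hb e => by
    by_contra ne
    obtain ⟨n, hn⟩ := pow_unbounded_of_one_lt (1 / |a - b|) (by norm_num : (1 : ℝ) < 3 / 2)
    rw [div_lt_iff₀ (abs_pos.2 (sub_ne_zero.2 ne)), ← abs_of_pos (by positivity :
      (0 : ℝ) < (3 / 2) ^ n), ← abs_mul, lt_abs] at hn
    have h1 := orbit ha.1 ha.2.2 n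
    have h2 := orbit hb.1 hb.2.2 n
    rw [show ⌊a⌋₊ = ⌊b⌋₊ from e] at h1
    rcases hn with hn | hn <;> linarith [ha.2.2 n, hb.2.2 n, Int.fract_nonneg (a * (3 / 2) ^ n),
      Int.fract_nonneg (b * (3 / 2) ^ n)]
  have bd : ∀ ξ ∈ S, ⌊ξ⌋₊ ≤ 32 ^ (w0 + 1 + w) := fun ξ hξ => Nat.floor_le_of_le (by
    push_cast
    exact (hξ.2.1.trans w2.le).trans (pow_le_pow_right₀ (by norm_num) (by omega)))
  have fin : S.Finite := Set.Finite.of_finite_image ((Set.finite_Iic _).subset (by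
    rintro _ ⟨ξ, hξ, rfl⟩
    exact bd ξ hξ)) inj
  refine ⟨fin, ?_⟩
  rw [Set.ncard_eq_toFinset_card S fin, ← card_image_of_injOn (by simpa using inj)]
  refine (hw (w0 + 1 + w) (by omega) _ fun x hx => ?_).trans ?_
  · obtain ⟨ξ, hξ, rfl⟩ := mem_image.1 hx
    rw [Set.Finite.mem_toFinset] at hξ
    refine ⟨bd ξ hξ, fun i => 2 * Int.fract (ξ * (3 / 2) ^ i), fun i => ⟨?_, ?_, ?_⟩⟩
    · linarith [Int.fract_nonneg (ξ * (3 / 2) ^ i)]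
    · linarith [hξ.2.2 i]
    · have h1 := orbit hξ.1 hξ.2.2 i
      have h2 := orbit hξ.1 hξ.2.2 (i + 1)
      have h3 : (2 : ℝ) * T (T^[i] ⌊ξ⌋₊) = 3 * T^[i] ⌊ξ⌋₊ + (T^[i] ⌊ξ⌋₊ % 2 : ℕ) := by
        exact_mod_cast two_T _
      have h4 : ξ * (3 / 2) ^ (i + 1) = 3 / 2 * (ξ * (3 / 2) ^ i) := by ring
      rw [Function.iterate_succ_apply'] at h2
      linarith
  · rw [← hρ, pow_add, mul_assoc]
    have h1 : ρ ≤ 32 ^ (8 / 15 : ℝ) := by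
      refine le_of_pow_le_pow_left₀ (n := 15) (by norm_num) (by positivity) ?_
      rw [← rpow_natCast (_ ^ _), ← rpow_mul (by norm_num), hρ]
      norm_num
    have h0 : 0 ≤ ρ := by rw [hρ]; norm_num
    gcongr
    calc ρ ^ w ≤ (32 ^ (8 / 15 : ℝ)) ^ w := pow_le_pow_left₀ h0 h1 w
      _ = (32 ^ w) ^ (8 / 15 : ℝ) := rpow_pow_comm (by norm_num) _ _
      _ ≤ _ := rpow_le_rpow (by positivity) w1 (by norm_num)

end Pool.Agent.Work.MP_baf0bc_nt.Parked.ZNumberCount
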